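import Pool.Agent.Y996.TL.Stm
import Pool.Agent.H988R2.Perc.T13

/-! C15: the trilinear pairing at the vectors of the three strips is `GR3` at ones. -/

set_option autoImplicit false

namespace Pool.Agent.Y710.TL

open Pool.Agent.H988R2.Perc hiding X
open Pool.Agent.H492C
open Pool.Agent.H980R3.Slit (psi1)
open Pool.Agent.Y996.TL
open Finset Polynomial

theorem eqvGen_le {α : Type*} {E F : α → α → Prop}
    (h : ∀ x y, E x y → Relation.EqvGen F x y)
    {x y : α} (hxy : Relation.EqvGen E x y) : Relation.EqvGen F x y := by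
  induction hxy with
  | rel x y hh => exact h x y hh
  | refl x => exact Relation.EqvGen.refl _
  | symm x y _ ih => exact Relation.EqvGen.symm _ _ ih
  | trans x y z _ _ ih1 ih2 => exact Relation.EqvGen.trans _ _ _ ih1 ih2

/-- the relation of the two upper strips in terms of `J5` -/
theorem comb_J5 {a k : ℕ} (hk : a + 3 = 2 * k) (R R1 R2 : St)
    (h1 : ∀ x y, R1.rel x y → x = y ∨ (x < a + 1 ∧ y < a + 1)) {x y : ℕ}
    (h : (comb k R1 R2).rel x y) : Relation.EqvGen (J5 a R R1 R2) x y := by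
  rcases h with h | ⟨h2, h3, h4⟩ | ⟨h2, h3, h4⟩
  · subst h; exact Relation.EqvGen.refl _
  · rcases h1 x y h4 with h5 | h5
    · subst h5; exact Relation.EqvGen.refl _
    · exact Relation.EqvGen.rel _ _ (Or.inr (Or.inl ⟨h4, by omega, by omega⟩))
  · rcases R2.odd _ _ h4 with h5 | ⟨h5, h6⟩
    · have : x = y := by omega
      subst this; exact Relation.EqvGen.refl _
    · refine Relation.EqvGen.rel _ _ (Or.inr (Or.inr ⟨by omega, by omega, ?_⟩))
      rw [hk]; exact h4

theorem J5_comb {a k : ℕ} (hk : a + 3 = 2 * k) (R1 R2 : St) {x y : ℕ}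
    (h : (R1.rel x y ∧ x ≤ a ∧ y ≤ a) ∨
      (a + 4 ≤ x ∧ a + 4 ≤ y ∧ R2.rel (x - (a+3)) (y - (a+3)))) : (comb k R1 R2).rel x y := by
  rcases h with ⟨h, h2, h3⟩ | ⟨h2, h3, h⟩
  · exact Or.inr (Or.inl ⟨by omega, by omega, h⟩)
  · refine Or.inr (Or.inr ⟨by omega, by omega, ?_⟩)
    rw [← hk]; exact h

theorem jn_iffB {a b k : ℕ} (hk : a + 3 = 2 * k) (R R1 R2 : St)
    (h1 : ∀ x y, R1.rel x y → x = y ∨ (x < a + 1 ∧ y < a + 1)) :
    jn a (a + 3 + b) R (comb k R1 R2) ↔ connB a b R R1 R2 := by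
  have e : a + 3 + b = a + b + 3 := by omega
  unfold jn connB
  rw [e]
  constructor
  · refine eqvGen_le fun x y h => ?_
    rcases h with h | h
    · exact Relation.EqvGen.rel _ _ (Or.inl h)
    · exact comb_J5 hk R R1 R2 h1 h
  · refine eqvGen_le fun x y h => ?_
    rcases h with h | h
    · exact Relation.EqvGen.rel _ _ (Or.inl h)
    · exact Relation.EqvGen.rel _ _ (Or.inr (J5_comb hk R1 R2 h))

/-- one more edge -/
theorem add_edge {E F : ℕ → ℕ → Prop} {u v : ℕ}
    (h : ∀ x y, F x y → Relation.EqvGen E x y ∨ (Relation.EqvGen E x u ∧ Relation.EqvGen E v y) ∨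
      (Relation.EqvGen E x v ∧ Relation.EqvGen E u y)) {x y : ℕ} (hxy : Relation.EqvGen F x y) :
    Relation.EqvGen E x y ∨ (Relation.EqvGen E x u ∧ Relation.EqvGen E v y) ∨
      (Relation.EqvGen E x v ∧ Relation.EqvGen E u y) := by
  have hs : ∀ {x y}, Relation.EqvGen E x y → Relation.EqvGen E y x :=
    fun h => Relation.EqvGen.symm _ _ h
  have ht : ∀ {x y z}, Relation.EqvGen E x y → Relation.EqvGen E y z → Relation.EqvGen E x z :=
    fun h k => Relation.EqvGen.trans _ _ _ h k
  induction hxy with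
  | rel x y hh => exact h x y hh
  | refl x => exact Or.inl (Relation.EqvGen.refl _)
  | symm x y _ ih =>
    rcases ih with h1 | ⟨h1, h2⟩ | ⟨h1, h2⟩
    · exact Or.inl (hs h1)
    · exact Or.inr (Or.inr ⟨hs h2, hs h1⟩)
    · exact Or.inr (Or.inl ⟨hs h2, hs h1⟩)
  | trans x y z _ _ ih1 ih2 =>
    rcases ih1 with h1 | ⟨h1, h2⟩ | ⟨h1, h2⟩ <;> rcases ih2 with k1 | ⟨k1, k2⟩ | ⟨k1, k2⟩
    · exact Or.inl (ht h1 k1)
    · exact Or.inr (Or.inl ⟨ht h1 k1, k2⟩)
    · exact Or.inr (Or.inr ⟨ht h1 k1, k2⟩)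
    · exact Or.inr (Or.inl ⟨h1, ht h2 k1⟩)
    · exact Or.inr (Or.inl ⟨h1, k2⟩)
    · exact Or.inl (ht h1 k2)
    · exact Or.inr (Or.inr ⟨h1, ht h2 k1⟩)
    · exact Or.inl (ht h1 k2)
    · exact Or.inr (Or.inr ⟨h1, k2⟩)

theorem jn_iffT {a b k : ℕ} (ha : a % 2 = 1) (hk : a + 3 = 2 * k) (R R1 R2 : St)
    (h1 : ∀ x y, R1.rel x y → x = y ∨ (x < a + 1 ∧ y < a + 1)) :
    jn a (a + 3 + b) (R.act a) (comb k R1 R2) ↔ connT a b R R1 R2 ∨ connB a b R R1 R2 := by
  have e : a + 3 + b = a + b + 3 := by omega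
  unfold jn connT connB
  rw [e]
  have hrr := R.eqv.refl
  constructor
  · intro h
    have h2 := add_edge (E := J5 a R R1 R2) (u := a) (v := a + 2) (fun x y hxy => ?_) h
    · rcases h2 with h2 | ⟨h2, h3⟩ | ⟨h2, h3⟩
      · exact Or.inr h2
      · exact Or.inl h3
      · exact Or.inr h3
    · rcases hxy with hxy | hxy
      · rcases hxy with hxy | ⟨_, _, _, _, hxy⟩
        · subst hxy; exact Or.inl (Relation.EqvGen.refl _)
        · have hR : ∀ {x y}, R.rel x y → Relation.EqvGen (J5 a R R1 R2) x y :=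
            fun h => Relation.EqvGen.rel _ _ (Or.inl h)
          rcases hxy with hxy | ⟨h3, h4⟩ | ⟨h3, h4⟩
          · exact Or.inl (hR hxy)
          · exact Or.inr (Or.inl ⟨hR h3, hR h4⟩)
          · exact Or.inr (Or.inr ⟨hR h3, hR h4⟩)
      · exact Or.inl (comb_J5 hk R R1 R2 h1 hxy)
  · have key : ∀ {x y}, Relation.EqvGen (J5 a R R1 R2) x y →
        Relation.EqvGen (fun x y => (R.act a).rel x y ∨ (comb k R1 R2).rel x y) x y := by
      intro x y
      refine eqvGen_le fun x y h => ?_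
      rcases h with h | h
      · rcases R.odd _ _ h with h2 | ⟨h2, h3⟩
        · subst h2; exact Relation.EqvGen.refl _
        · exact Relation.EqvGen.rel _ _ (Or.inl (Or.inr ⟨h2, h3, by omega, by omega, Or.inl h⟩))
      · exact Relation.EqvGen.rel _ _ (Or.inr (J5_comb hk R1 R2 h))
    rintro (h | h)
    · refine Relation.EqvGen.trans _ _ _ (Relation.EqvGen.rel _ _ (Or.inl (Or.inr
        ⟨ha, (by omega : (a + 2) % 2 = 1), by omega, by omega, Or.inr (Or.inl ⟨hrr _, hrr _⟩)⟩)))
        (key h)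
    · exact key h

theorem pair_eq (a b k : ℕ) (ha : a % 2 = 1) (hk : a + 3 = 2 * k) (f g h : St →₀ ℂ)
    (hg : ∀ R ∈ g.support, ∀ x y, R.rel x y → x = y ∨ (x < a + 1 ∧ y < a + 1)) :
    pr3 a (a + 3 + b) f (comb2 k g h) = pair5 a b f g h := by
  classical
  unfold pr3 pairG
  rw [Finsupp.sum_mapDomain_index]
  · rw [← Finsupp.sum_sub]
    unfold pair5
    refine Finsupp.sum_congr fun R _ => ?_
    rw [← Finsupp.sum_sub]
    unfold comb2
    rw [Finsupp.sum_sum_index]
    · refine Finsupp.sum_congr fun R1 hR1 => ?_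
      rw [Finsupp.sum_sum_index]
      · refine Finsupp.sum_congr fun R2 _ => ?_
        rw [Finsupp.sum_single_index]
        · have e1 := jn_iffB (b := b) hk R R1 R2 (hg R1 hR1)
          have e2 := jn_iffT (b := b) ha hk R R1 R2 (hg R1 hR1)
          simp only [e1, e2]
          by_cases hT : connT a b R R1 R2 <;> by_cases hB : connB a b R R1 R2 <;>
            simp [hT, hB] <;> ring
        · simp
      · intro R'; simp
      · intro R' b1 b2; ring
    · intro R'; simp
    · intro R' b1 b2; ring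
  · intro R; simp
  · intro R b1 b2
    rw [← Finsupp.sum_add]
    refine Finsupp.sum_congr fun R' _ => ?_
    ring

theorem c15 : S_C15 := by
  intro a b ha hb
  obtain ⟨m, hm⟩ := ha
  have e1 : (List.replicate a (1 : ℂ)).map (fun x => x⁻¹) = List.replicate a 1 := by
    rw [List.map_replicate, inv_one]
  have e2 : (List.replicate b (1 : ℂ)).map (fun x => x⁻¹) = List.replicate b 1 := by
    rw [List.map_replicate, inv_one]
  have e3 : List.replicate a (1 : ℂ) ++ 1 :: 1 :: 1 :: (List.replicate b 1 ++ [0]) =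
      List.replicate (a + b + 3) 1 ++ [0] := by
    have h1 : (1 : ℂ) :: 1 :: 1 :: (List.replicate b 1 ++ [0]) =
        List.replicate (b + 3) 1 ++ [0] := by
      rw [List.replicate_succ, List.replicate_succ, List.replicate_succ]
      rfl
    rw [h1, ← List.append_assoc, List.replicate_append_replicate, add_assoc]
  unfold GR3 up1 psi1
  rw [e1, e2, e3, List.length_replicate, List.length_replicate]
  symm
  refine pair_eq a b ((a + 3) / 2) (by omega) (by omega) _ _ _ ?_
  intro R hR x y hxy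
  have := Psi_supp (List.replicate a (1 : ℂ) ++ [0])
    (by rw [List.length_append, List.length_replicate]; exact ⟨m + 1, by simp; omega⟩)
    R hR x y hxy
  rw [List.length_append, List.length_replicate] at this
  exact this

end Pool.Agent.Y710.TL
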